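import Mathlib

/-!
# Vanishing sums of roots of unity: the linear algebra
-/

namespace Pool.Agent.Run7.h479.LL

open Polynomial IntermediateField

noncomputable section

/-- the `n`-th roots of unity -/
def mu (n : ℕ) : Finset ℂ := nthRootsFinset n (1 : ℂ)

theorem mem_mu {n : ℕ} (hn : 0 < n) {z : ℂ} : z ∈ mu n ↔ z ^ n = 1 := mem_nthRootsFinset hn _

theorem isIntegral_of_pow {n : ℕ} (hn : 0 < n) {z : ℂ} (hz : z ^ n = 1) : IsIntegral ℚ z :=
  IsIntegral.of_pow hn (by rw [hz]; exact isIntegral_one)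

theorem finrank_adjoin {m : ℕ} (hm : 0 < m) {s : ℂ} (hs : IsPrimitiveRoot s m) :
    Module.finrank ℚ ℚ⟮s⟯ = m.totient := by
  rw [adjoin.finrank (isIntegral_of_pow hm hs.pow_eq_one), ← cyclotomic_eq_minpoly_rat hs hm,
    natDegree_cyclotomic]

theorem totient_le {m n : ℕ} (hm : 0 < m) (hn : 0 < n) {s t x : ℂ} (hs : IsPrimitiveRoot s m)
    (ht : IsPrimitiveRoot t n) (hx : IsIntegral ℚ x) (htx : t ∈ ℚ⟮s⟯⟮x⟯) :
    n.totient ≤ m.totient * (minpoly ℚ⟮s⟯ x).natDegree := by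
  have hx' : IsIntegral ℚ⟮s⟯ x := hx.tower_top
  have : FiniteDimensional ℚ ℚ⟮s⟯ :=
    adjoin.finiteDimensional (isIntegral_of_pow hm hs.pow_eq_one)
  have : FiniteDimensional ℚ⟮s⟯ ℚ⟮s⟯⟮x⟯ := adjoin.finiteDimensional hx'
  have : FiniteDimensional ℚ ℚ⟮s⟯⟮x⟯ := FiniteDimensional.trans ℚ ℚ⟮s⟯ ℚ⟮s⟯⟮x⟯
  rw [← finrank_adjoin hm hs, ← adjoin.finrank hx', Module.finrank_mul_finrank ℚ ℚ⟮s⟯ ℚ⟮s⟯⟮x⟯]
  have h1 := minpoly.natDegree_le (A := ℚ) (⟨t, htx⟩ : ℚ⟮s⟯⟮x⟯)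
  have h2 : minpoly ℚ (⟨t, htx⟩ : ℚ⟮s⟯⟮x⟯) = minpoly ℚ t := by
    have h3 := minpoly.algebraMap_eq (A := ℚ) (B := ℚ⟮s⟯⟮x⟯) (B' := ℂ)
      (algebraMap ℚ⟮s⟯⟮x⟯ ℂ).injective ⟨t, htx⟩
    exact h3.symm
  rw [h2, ← cyclotomic_eq_minpoly_rat ht hn, natDegree_cyclotomic] at h1
  exact h1

theorem indep {K : Type*} [Field K] [Algebra K ℂ] {x : ℂ} {d : ℕ}
    (hd : d ≤ (minpoly K x).natDegree) (y : ℕ → K)
    (h : ∑ i ∈ Finset.range d, algebraMap K ℂ (y i) * x ^ i = 0) : ∀ i < d, y i = 0 := by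
  classical
  let f : K[X] := ∑ i ∈ Finset.range d, C (y i) * X ^ i
  have hf : aeval x f = 0 := by
    simp only [f, map_sum, map_mul, aeval_C, map_pow, aeval_X]
    exact h
  have hdeg : f.degree < d := by
    refine (degree_sum_le _ _).trans_lt ?_
    rw [Finset.sup_lt_iff (by exact WithBot.bot_lt_coe d)]
    intro i hi
    exact (degree_C_mul_X_pow_le i (y i)).trans_lt (by exact_mod_cast Finset.mem_range.1 hi)
  have hf0 : f = 0 := by
    by_contra hne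
    have h1 := minpoly.degree_le_of_ne_zero K x hne hf
    have h2 : (d : WithBot ℕ) ≤ (minpoly K x).degree := by
      rcases Nat.eq_zero_or_pos d with h3 | h3
      · subst h3
        have h4 : f = 0 := by simp [f]
        exact absurd h4 hne
      · have h5 : minpoly K x ≠ 0 := by
          intro h6
          rw [h6, natDegree_zero] at hd
          omega
        rw [degree_eq_natDegree h5]
        exact_mod_cast hd
    exact absurd (h1.trans_lt hdeg) (not_lt.2 h2)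
  intro i hi
  have h1 : f.coeff i = y i := by
    simp only [f, finsetSum_coeff, coeff_C_mul, coeff_X_pow]
    rw [Finset.sum_eq_single i]
    · simp
    · intro b _ hb
      rw [if_neg hb.symm, mul_zero]
    · intro h2
      exact absurd (Finset.mem_range.2 hi) h2
  rw [← h1, hf0, coeff_zero]

theorem mem_adjoin_of_pow {m : ℕ} (hm : 0 < m) {s u : ℂ} (hs : IsPrimitiveRoot s m)
    (hu : u ^ m = 1) : u ∈ ℚ⟮s⟯ := by
  have : NeZero m := ⟨hm.ne'⟩
  obtain ⟨i, _, rfl⟩ := hs.eq_pow_of_pow_eq_one hu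
  exact pow_mem (mem_adjoin_simple_self ℚ s) i

theorem sum_mem_adjoin {m : ℕ} (hm : 0 < m) {s : ℂ} (hs : IsPrimitiveRoot s m) (w : ℂ → ℕ) :
    ∑ u ∈ mu m, (w u : ℂ) * u ∈ ℚ⟮s⟯ := by
  refine sum_mem fun u hu => mul_mem ?_ (mem_adjoin_of_pow hm hs ((mem_mu hm).1 hu))
  exact _root_.natCast_mem _ _

/-- If `p` does not divide `m`, the parts of a vanishing sum of `p * m`-th roots of unity, divided by
the corresponding `p`-th roots of unity, have the same value. -/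
theorem parts_eq {p m : ℕ} (hp : p.Prime) (hpm : ¬ p ∣ m) (hm : 0 < m) {z : ℂ}
    (hz : IsPrimitiveRoot z p) (y : ℕ → ℂ)
    (hy : ∀ s : ℂ, IsPrimitiveRoot s m → ∀ i, y i ∈ ℚ⟮s⟯)
    (h : ∑ i ∈ Finset.range p, y i * z ^ i = 0) : ∀ i < p, y i = y (p - 1) := by
  set n := p * m with hn
  have hn0 : 0 < n := Nat.mul_pos hp.pos hm
  have ht := Complex.isPrimitiveRoot_exp n hn0.ne'
  set t := Complex.exp (2 * Real.pi * Complex.I / n) with htdef
  have hs : IsPrimitiveRoot (t ^ p) m := ht.pow hn0 hn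
  have hz' : IsPrimitiveRoot (t ^ m) p := ht.pow hn0 (by rw [hn, mul_comm])
  have htx : t ∈ ℚ⟮t ^ p⟯⟮z⟯ := by
    have hpz : p.Prime := hp
    have hne : NeZero p := ⟨hp.ne_zero⟩
    obtain ⟨k, _, hk⟩ := hz.eq_pow_of_pow_eq_one hz'.pow_eq_one
    have h1 : t ^ m ∈ ℚ⟮t ^ p⟯⟮z⟯ := by
      rw [← hk]
      exact pow_mem (mem_adjoin_simple_self _ z) k
    have h2 : t ^ p ∈ ℚ⟮t ^ p⟯⟮z⟯ := by
      have h3 := (ℚ⟮t ^ p⟯⟮z⟯).algebraMap_mem ⟨t ^ p, mem_adjoin_simple_self ℚ (t ^ p)⟩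
      exact h3
    have hcop : IsCoprime (p : ℤ) (m : ℤ) := by
      rw [Nat.isCoprime_iff_coprime]
      exact (Nat.Prime.coprime_iff_not_dvd hp).2 hpm
    obtain ⟨a, b, hab⟩ := hcop
    have ht0 : t ≠ 0 := ht.ne_zero hn0.ne'
    have h3 : t = (t ^ p) ^ a * (t ^ m) ^ b := by
      rw [← zpow_natCast t p, ← zpow_natCast t m, ← zpow_mul, ← zpow_mul, ← zpow_add₀ ht0]
      have h4 : (p : ℤ) * a + m * b = 1 := by linarith
      rw [h4, zpow_one]
    have h5 := mul_mem (zpow_mem h2 a) (zpow_mem h1 b)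
    rw [← h3] at h5
    exact h5
  have h1 := totient_le hm hn0 hs ht (isIntegral_of_pow hp.pos hz.pow_eq_one) htx
  rw [hn, Nat.totient_mul ((Nat.Prime.coprime_iff_not_dvd hp).2 hpm), Nat.totient_prime hp,
    mul_comm] at h1
  have h2 : p - 1 ≤ (minpoly ℚ⟮t ^ p⟯ z).natDegree :=
    Nat.le_of_mul_le_mul_left h1 (Nat.totient_pos.2 hm)
  have hzs : ∑ i ∈ Finset.range p, z ^ i = 0 := hz.geom_sum_eq_zero hp.one_lt
  have hsum : ∑ i ∈ Finset.range (p - 1), (y i - y (p - 1)) * z ^ i = 0 := by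
    have h3 : ∑ i ∈ Finset.range p, (y i - y (p - 1)) * z ^ i = 0 := by
      simp only [sub_mul, Finset.sum_sub_distrib, h, ← Finset.mul_sum, hzs]
      simp
    have h4 : p = p - 1 + 1 := (Nat.succ_pred_eq_of_pos hp.pos).symm
    rw [h4, Finset.sum_range_succ] at h3
    simpa using h3
  have h5 := indep (K := ℚ⟮t ^ p⟯) h2
    (fun i => ⟨y i - y (p - 1), sub_mem (hy _ hs i) (hy _ hs (p - 1))⟩) hsum
  intro i hi
  rcases Nat.lt_or_ge i (p - 1) with h6 | h6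
  · have h7 := congrArg Subtype.val (h5 i h6)
    exact sub_eq_zero.1 h7
  · have h7 : i = p - 1 := by omega
    rw [h7]

/-- If `p` divides `m`, the parts of a vanishing sum of `p * m`-th roots of unity vanish. -/
theorem parts_zero {p m : ℕ} (hp : p.Prime) (hpm : p ∣ m) (hm : 0 < m) {t : ℂ}
    (ht : IsPrimitiveRoot t (p * m)) (y : ℕ → ℂ)
    (hy : ∀ i, y i ∈ ℚ⟮t ^ p⟯)
    (h : ∑ i ∈ Finset.range p, y i * t ^ i = 0) : ∀ i < p, y i = 0 := by
  have hn0 : 0 < p * m := Nat.mul_pos hp.pos hm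
  have hs : IsPrimitiveRoot (t ^ p) m := ht.pow hn0 rfl
  have h1 := totient_le hm hn0 hs ht (isIntegral_of_pow hn0 ht.pow_eq_one)
    (mem_adjoin_simple_self _ t)
  rw [Nat.totient_mul_of_prime_of_dvd hp hpm, mul_comm] at h1
  have h2 : p ≤ (minpoly ℚ⟮t ^ p⟯ t).natDegree :=
    Nat.le_of_mul_le_mul_left h1 (Nat.totient_pos.2 hm)
  have h5 := indep (K := ℚ⟮t ^ p⟯) h2 (fun i => ⟨y i, hy i⟩) h
  intro i hi
  exact congrArg Subtype.val (h5 i hi)

end

end Pool.Agent.Run7.h479.LL
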