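import Mathlib
import Pool.Agent.Run7.h479.LL.Field

/-!
# Sums over roots of unity
-/

namespace Pool.Agent.Run7.h479.LL

open Polynomial

noncomputable section

theorem mu_eq_image {n : ℕ} (hn : 0 < n) {z : ℂ} (hz : IsPrimitiveRoot z n) :
    mu n = (Finset.range n).image (fun i => z ^ i) := by
  ext u
  rw [mem_mu hn, Finset.mem_image]
  constructor
  · intro hu
    have : NeZero n := ⟨hn.ne'⟩
    obtain ⟨i, hi, h⟩ := hz.eq_pow_of_pow_eq_one hu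
    exact ⟨i, Finset.mem_range.2 hi, h⟩
  · rintro ⟨i, _, rfl⟩
    rw [← pow_mul, mul_comm, pow_mul, hz.pow_eq_one, one_pow]

theorem sum_mu {M : Type*} [AddCommMonoid M] {n : ℕ} (hn : 0 < n) {z : ℂ}
    (hz : IsPrimitiveRoot z n) (G : ℂ → M) :
    ∑ u ∈ mu n, G u = ∑ i ∈ Finset.range n, G (z ^ i) := by
  rw [mu_eq_image hn hz, Finset.sum_image]
  intro i hi j hj hij
  exact hz.pow_inj (Finset.mem_range.1 hi) (Finset.mem_range.1 hj) hij

theorem card_mu {n : ℕ} (hn : 0 < n) : (mu n).card = n := by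
  have h := sum_mu hn (Complex.isPrimitiveRoot_exp n hn.ne') (fun _ => 1)
  simpa using h

theorem mu_ne_zero {n : ℕ} (hn : 0 < n) {u : ℂ} (hu : u ∈ mu n) : u ≠ 0 := by
  rintro rfl
  rw [mem_mu hn, zero_pow hn.ne'] at hu
  exact zero_ne_one hu

theorem mul_mem_mu {n : ℕ} (hn : 0 < n) {u v : ℂ} (hu : u ∈ mu n) (hv : v ∈ mu n) :
    u * v ∈ mu n := by
  rw [mem_mu hn] at *
  rw [mul_pow, hu, hv, one_mul]

theorem inv_mem_mu {n : ℕ} (hn : 0 < n) {u : ℂ} (hu : u ∈ mu n) : u⁻¹ ∈ mu n := by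
  rw [mem_mu hn] at *
  rw [inv_pow, hu, inv_one]

theorem one_mem_mu {n : ℕ} (hn : 0 < n) : (1 : ℂ) ∈ mu n := by
  rw [mem_mu hn, one_pow]

theorem mem_mu_of_dvd {a n : ℕ} (hn : 0 < n) (h : a ∣ n) {u : ℂ} (hu : u ∈ mu a) : u ∈ mu n := by
  have ha : 0 < a := Nat.pos_of_dvd_of_pos h hn
  obtain ⟨b, rfl⟩ := h
  rw [mem_mu ha] at hu
  rw [mem_mu hn, pow_mul, hu, one_pow]

theorem sum_shift {M : Type*} [AddCommMonoid M] {n : ℕ} (hn : 0 < n) {v : ℂ} (hv : v ∈ mu n)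
    (G : ℂ → M) : ∑ u ∈ mu n, G (u * v) = ∑ u ∈ mu n, G u := by
  have hv0 := mu_ne_zero hn hv
  refine Finset.sum_nbij' (fun u => u * v) (fun u => u * v⁻¹) ?_ ?_ ?_ ?_ ?_
  · intro u hu
    exact mul_mem_mu hn hu hv
  · intro u hu
    exact mul_mem_mu hn hu (inv_mem_mu hn hv)
  · intro u _
    field_simp
  · intro u _
    field_simp
  · intro u _
    rfl

theorem exists_crt {a b : ℕ} (h : Nat.Coprime a b) (ha : 0 < a) (hb : 0 < b) :
    ∃ e1 e2 : ℕ, (∀ v ∈ mu a, v ^ e1 = v ∧ v ^ e2 = 1) ∧ (∀ v ∈ mu b, v ^ e1 = 1 ∧ v ^ e2 = v) ∧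
      ∀ U ∈ mu (a * b), U ^ e1 ∈ mu a ∧ U ^ e2 ∈ mu b ∧ U ^ e1 * U ^ e2 = U := by
  have hab : 0 < a * b := Nat.mul_pos ha hb
  have key : ∀ {n k l : ℕ} {u : ℂ}, 0 < n → u ∈ mu n → k ≡ l [MOD n] → u ^ k = u ^ l := by
    intro n k l u hn hu hkl
    rw [mem_mu hn] at hu
    rw [← Nat.mod_add_div k n, ← Nat.mod_add_div l n, pow_add, pow_add, pow_mul, pow_mul, hu,
      one_pow, one_pow, hkl]
  obtain ⟨e1, h11, h12⟩ := Nat.chineseRemainder h 1 0
  obtain ⟨e2, h21, h22⟩ := Nat.chineseRemainder h 0 1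
  refine ⟨e1, e2, ?_, ?_, ?_⟩
  · intro v hv
    exact ⟨by rw [key ha hv h11, pow_one], by rw [key ha hv h21, pow_zero]⟩
  · intro v hv
    exact ⟨by rw [key hb hv h12, pow_zero], by rw [key hb hv h22, pow_one]⟩
  · intro U hU
    have hd1 : b ∣ e1 := (Nat.modEq_zero_iff_dvd).1 h12
    have hd2 : a ∣ e2 := (Nat.modEq_zero_iff_dvd).1 h21
    have hU' := (mem_mu hab).1 hU
    refine ⟨?_, ?_, ?_⟩
    · rw [mem_mu ha, ← pow_mul]
      obtain ⟨k, rfl⟩ := hd1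
      rw [show b * k * a = a * b * k by ring, pow_mul, hU', one_pow]
    · rw [mem_mu hb, ← pow_mul]
      obtain ⟨k, rfl⟩ := hd2
      rw [show a * k * b = a * b * k by ring, pow_mul, hU', one_pow]
    · rw [← pow_add]
      have h1 : e1 + e2 ≡ 1 [MOD a * b] := by
        rw [← Nat.modEq_and_modEq_iff_modEq_mul h]
        exact ⟨h11.add h21, h12.add h22⟩
      rw [key hab hU h1, pow_one]

theorem sum_mul {M : Type*} [AddCommMonoid M] {a b : ℕ} (h : Nat.Coprime a b) (ha : 0 < a)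
    (hb : 0 < b) (G : ℂ → M) :
    ∑ U ∈ mu (a * b), G U = ∑ v ∈ mu a, ∑ u ∈ mu b, G (v * u) := by
  have hab : 0 < a * b := Nat.mul_pos ha hb
  obtain ⟨e1, e2, h1, h2, h3⟩ := exists_crt h ha hb
  rw [← Finset.sum_product']
  refine Finset.sum_nbij' (fun U => (U ^ e1, U ^ e2)) (fun x => x.1 * x.2) ?_ ?_ ?_ ?_ ?_
  · intro U hU
    rw [Finset.mem_product]
    exact ⟨(h3 U hU).1, (h3 U hU).2.1⟩
  · intro x hx
    rw [Finset.mem_product] at hx
    exact mul_mem_mu hab (mem_mu_of_dvd hab (Dvd.intro _ rfl) hx.1)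
      (mem_mu_of_dvd hab (Dvd.intro_left _ rfl) hx.2)
  · intro U hU
    exact (h3 U hU).2.2
  · intro x hx
    rw [Finset.mem_product] at hx
    ext
    · change (x.1 * x.2) ^ e1 = x.1
      rw [mul_pow, (h1 _ hx.1).1, (h2 _ hx.2).1, mul_one]
    · change (x.1 * x.2) ^ e2 = x.2
      rw [mul_pow, (h1 _ hx.1).2, (h2 _ hx.2).2, one_mul]
  · intro U hU
    change G U = G (U ^ e1 * U ^ e2)
    rw [(h3 U hU).2.2]

/-- The sum over a coset of the `q`-th roots of unity. -/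
theorem sum_coset_le {m q : ℕ} (hm : 0 < m) (hqm : q ∣ m) {u : ℂ} (hu : u ∈ mu m)
    (f : ℂ → ℕ) : ∑ v ∈ mu q, f (u * v) ≤ ∑ u ∈ mu m, f u := by
  have hq : 0 < q := Nat.pos_of_dvd_of_pos hqm hm
  have hu0 := mu_ne_zero hm hu
  rw [← Finset.sum_image (f := f) (s := mu q) (g := fun v => u * v)]
  · refine Finset.sum_le_sum_of_subset ?_
    intro x hx
    rw [Finset.mem_image] at hx
    obtain ⟨v, hv, rfl⟩ := hx
    exact mul_mem_mu hm hu (mem_mu_of_dvd hm hqm hv)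
  · intro x _ y _ hxy
    exact mul_left_cancel₀ hu0 hxy

/-- A `p`-invariant function on the `n`-th roots of unity has a sum divisible by `p`. -/
theorem dvd_sum_of_inv {n p : ℕ} (hn : 0 < n) (hpn : p ∣ n) (f : ℂ → ℕ)
    (hf : ∀ u ∈ mu n, ∀ v ∈ mu p, f (u * v) = f u) : p ∣ ∑ u ∈ mu n, f u := by
  classical
  have hp : 0 < p := Nat.pos_of_dvd_of_pos hpn hn
  have h1 : ∀ u ∈ mu n, u ^ p ∈ (mu n).image (fun u => u ^ p) := fun u hu =>
    Finset.mem_image_of_mem _ hu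
  rw [← Finset.sum_fiberwise_of_maps_to h1]
  refine Finset.dvd_sum fun b hb => ?_
  rw [Finset.mem_image] at hb
  obtain ⟨u₀, hu₀, rfl⟩ := hb
  have hu00 := mu_ne_zero hn hu₀
  have h2 : (mu n).filter (fun u => u ^ p = u₀ ^ p) = (mu p).image (fun v => u₀ * v) := by
    ext x
    rw [Finset.mem_filter, Finset.mem_image]
    constructor
    · rintro ⟨hx, hxp⟩
      refine ⟨x / u₀, ?_, ?_⟩
      · rw [mem_mu hp, div_pow, hxp, div_self (pow_ne_zero _ hu00)]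
      · field_simp
    · rintro ⟨v, hv, rfl⟩
      refine ⟨mul_mem_mu hn hu₀ (mem_mu_of_dvd hn hpn hv), ?_⟩
      rw [mul_pow, (mem_mu hp).1 hv, mul_one]
  rw [h2, Finset.sum_image (fun x _ y _ hxy => mul_left_cancel₀ hu00 hxy),
    Finset.sum_congr rfl (fun v hv => hf u₀ hu₀ v hv), Finset.sum_const, card_mu hp, smul_eq_mul]
  exact Dvd.intro _ rfl

end

end Pool.Agent.Run7.h479.LL
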