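import Mathlib
import Pool.Agent.Run7.h479.LL.Mu

/-!
# Short vanishing sums of roots of unity: the counting argument
-/

namespace Pool.Agent.Run7.h479.LL

open Polynomial

noncomputable section

/-- the value of the sum of roots of unity with the multiplicities `w` -/
def val (n : ℕ) (w : ℂ → ℕ) : ℂ := ∑ u ∈ mu n, (w u : ℂ) * u

/-- the length of the sum -/
def tot (n : ℕ) (w : ℂ → ℕ) : ℕ := ∑ u ∈ mu n, w u

theorem sum_coset_tot {m q : ℕ} (hm : 0 < m) (hqm : q ∣ m) (x0 : ℂ → ℕ) :
    ∑ u ∈ mu m, ∑ v ∈ mu q, x0 (u * v) = q * tot m x0 := by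
  have hq : 0 < q := Nat.pos_of_dvd_of_pos hqm hm
  rw [Finset.sum_comm]
  rw [Finset.sum_congr rfl (fun v hv => sum_shift hm (mem_mu_of_dvd hm hqm hv) x0)]
  rw [Finset.sum_const, card_mu hq, smul_eq_mul]
  rfl

theorem coset_shift {m q : ℕ} (hm : 0 < m) (hqm : q ∣ m) (x0 : ℂ → ℕ) (u : ℂ) {v : ℂ}
    (hv : v ∈ mu q) : ∑ v' ∈ mu q, x0 (u * v * v') = ∑ v' ∈ mu q, x0 (u * v') := by
  have hq : 0 < q := Nat.pos_of_dvd_of_pos hqm hm
  rw [← sum_shift hq hv (fun v' => x0 (u * v'))]
  refine Finset.sum_congr rfl fun v' _ => ?_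
  congr 1
  ring

theorem key {p m q : ℕ} (hm : 0 < m) (hq : q.Prime) (hqm : q ∣ m) (hsq : Squarefree m)
    (hmin : ∀ r ∈ m.primeFactors, q ≤ r) (hmax : ∀ r ∈ m.primeFactors, r < p)
    (x x0 : ℂ → ℕ) (f : ℕ → ℂ → ℕ)
    (hf : ∀ r ∈ m.primeFactors, ∀ u ∈ mu m, ∀ v ∈ mu r, f r (u * v) = f r u)
    (hy : ∀ u ∈ mu m, x u + ∑ v ∈ mu q, x0 (u * v) = x0 u + ∑ r ∈ m.primeFactors, f r u)
    (hle : tot m x0 ≤ tot m x)
    (hsmall : ∀ a ∈ m.primeFactors, a ≠ q → tot m x + (p - 1) * tot m x0 < (q - 1) * (a - 1))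
    (u : ℂ) (hu : u ∈ mu m) : ∑ v ∈ mu q, x0 (u * v) ≤ f q u := by
  classical
  by_contra hlt
  rw [not_le] at hlt
  have hqf : q ∈ m.primeFactors := Nat.mem_primeFactors.2 ⟨hq, hqm, hm.ne'⟩
  set c := ∑ v ∈ mu q, x0 (u * v) with hc
  set k := f q u with hk
  set t0 := tot m x0 with ht0
  set T := tot m x with hT
  set A := ∑ v ∈ mu q, x (u * v) with hA
  set Rs := ∑ r ∈ m.primeFactors.erase q, ∑ v ∈ mu q, f r (u * v) with hRs
  have hmemC : ∀ v ∈ mu q, u * v ∈ mu m := fun v hv =>
    mul_mem_mu hm hu (mem_mu_of_dvd hm hqm hv)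
  have hsplit : ∀ g : ℕ → ℕ, ∑ r ∈ m.primeFactors, g r = g q + ∑ r ∈ m.primeFactors.erase q, g r :=
    fun g => (Finset.add_sum_erase _ _ hqf).symm
  -- the sum over the coset
  have h1 : A + q * c = c + (q * k + Rs) := by
    have h2 := Finset.sum_congr rfl (fun v hv => hy (u * v) (hmemC v hv)) (s₁ := mu q)
    simp only [Finset.sum_add_distrib] at h2
    have h3 : ∑ v ∈ mu q, ∑ v' ∈ mu q, x0 (u * v * v') = q * c := by
      rw [Finset.sum_congr rfl (fun v hv => coset_shift hm hqm x0 u hv), Finset.sum_const,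
        card_mu hq.pos, smul_eq_mul]
    have h4 : ∑ v ∈ mu q, ∑ r ∈ m.primeFactors, f r (u * v) = q * k + Rs := by
      rw [Finset.sum_comm, hsplit, Finset.sum_congr rfl (fun v hv => hf q hqf u hu v hv),
        Finset.sum_const, card_mu hq.pos, smul_eq_mul]
    rw [h3, h4] at h2
    exact h2
  have hct : c ≤ t0 := sum_coset_le hm hqm hu x0
  have hAT : A ≤ T := sum_coset_le hm hqm hu x
  rcases (m.primeFactors.erase q).eq_empty_or_nonempty with hemp | hne
  · -- `m = q`
    have hpf : m.primeFactors = {q} := by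
      apply Finset.Subset.antisymm
      · intro r hr
        by_contra h5
        have h6 : r ∈ m.primeFactors.erase q :=
          Finset.mem_erase.2 ⟨fun h7 => h5 (Finset.mem_singleton.2 h7), hr⟩
        rw [hemp] at h6
        exact absurd h6 (Finset.notMem_empty _)
      · exact Finset.singleton_subset_iff.2 hqf
    have hmq : m = q := by
      rw [← Nat.prod_primeFactors_of_squarefree hsq, hpf, Finset.prod_singleton]
    have hR0 : Rs = 0 := by rw [hRs, hemp, Finset.sum_empty]
    have hAT' : A = T := by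
      rw [hA, hT, tot, hmq]
      rw [← sum_shift hq.pos (hmq ▸ hu) x]
      refine Finset.sum_congr rfl fun v _ => ?_
      rw [mul_comm]
    have hct' : c = t0 := by
      rw [hc, ht0, tot, hmq]
      rw [← sum_shift hq.pos (hmq ▸ hu) x0]
      refine Finset.sum_congr rfl fun v _ => ?_
      rw [mul_comm]
    have h2 : c ≤ A := by rw [hAT', hct']; exact hle
    have h3 : q * c ≤ q * k := by omega
    have h4 := Nat.le_of_mul_le_mul_left h3 hq.pos
    omega
  · obtain ⟨P, hP, hPmin⟩ := Finset.exists_min_image (m.primeFactors.erase q) id hne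
    rw [Finset.mem_erase] at hP
    have hPmin' : ∀ r ∈ m.primeFactors.erase q, P ≤ r := fun r hr => hPmin r hr
    have hPp : P.Prime := (Nat.mem_primeFactors.1 hP.2).1
    have hPq : q ≤ P := hmin P hP.2
    have hpP : P < p := hmax P hP.2
    have hs := hsmall P hP.2 hP.1
    -- the total sum
    have h2 : T + q * t0 = t0 + ∑ r ∈ m.primeFactors, ∑ u ∈ mu m, f r u := by
      have h3 := Finset.sum_congr rfl (fun u hu => hy u hu) (s₁ := mu m)
      simp only [Finset.sum_add_distrib] at h3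
      rw [sum_coset_tot hm hqm, Finset.sum_comm (s := mu m) (t := m.primeFactors)] at h3
      exact h3
    have h3 : q * k ≤ ∑ u ∈ mu m, f q u := by
      refine le_trans ?_ (sum_coset_le hm hqm hu (f q))
      rw [Finset.sum_congr rfl (fun v hv => hf q hqf u hu v hv),
        Finset.sum_const, card_mu hq.pos, smul_eq_mul]
    have h4 : ∀ r ∈ m.primeFactors.erase q,
        P * ∑ v ∈ mu q, f r (u * v) ≤ ∑ u ∈ mu m, f r u := by
      intro r hr
      have hr' := Finset.mem_erase.1 hr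
      have hrp : r.Prime := (Nat.mem_primeFactors.1 hr'.2).1
      have hrm : r ∣ m := (Nat.mem_primeFactors.1 hr'.2).2.1
      have hcop : Nat.Coprime q r := (Nat.coprime_primes hq hrp).2 (fun h => hr'.1 h.symm)
      have hqr : q * r ∣ m := hcop.mul_dvd_of_dvd_of_dvd hqm hrm
      have h5 := sum_coset_le hm hqr hu (f r)
      rw [sum_mul hcop hq.pos hrp.pos (fun v => f r (u * v))] at h5
      refine le_trans ?_ h5
      have h6 : ∀ v ∈ mu q, ∑ v' ∈ mu r, f r (u * (v * v')) = r * f r (u * v) := by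
        intro v hv
        have h7 : ∀ v' ∈ mu r, f r (u * (v * v')) = f r (u * v) := by
          intro v' hv'
          rw [← mul_assoc]
          exact hf r hr'.2 (u * v) (hmemC v hv) v' hv'
        rw [Finset.sum_congr rfl h7, Finset.sum_const, card_mu hrp.pos, smul_eq_mul]
      rw [Finset.sum_congr rfl h6, ← Finset.mul_sum]
      exact Nat.mul_le_mul_right _ (hPmin' r hr)
    have h5 : P * Rs ≤ ∑ r ∈ m.primeFactors.erase q, ∑ u ∈ mu m, f r u := by
      rw [hRs, Finset.mul_sum]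
      exact Finset.sum_le_sum h4
    have h6 : t0 + (q * k + P * Rs) ≤ T + q * t0 := by
      rw [h2, hsplit]
      omega
    have hq1 := hq.one_lt
    have hP1 := hPp.one_lt
    have hp1 : 1 < p := hP1.trans hpP
    zify [hq1.le, hP1.le, hp1.le] at *
    have e1 : (Rs : ℤ) = A + q * c - c - q * k := by linarith
    have e2 : (q : ℤ) * (c - k) ≥ q := by nlinarith
    have e3 : (Rs : ℤ) ≥ q - c + A := by nlinarith
    have e4 : (P - 1 : ℤ) * Rs ≥ (P - 1) * (q - c + A) :=
      mul_le_mul_of_nonneg_left e3 (by linarith)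
    have e5 : (P - 1 : ℤ) * A ≥ 0 := mul_nonneg (by linarith) (by positivity)
    have e6 : (p - q : ℤ) * t0 ≥ (P - q) * c := by
      have a1 : (p - q : ℤ) * t0 ≥ (P - q) * t0 :=
        mul_le_mul_of_nonneg_right (by linarith) (by positivity)
      have a2 : (P - q : ℤ) * t0 ≥ (P - q) * c :=
        mul_le_mul_of_nonneg_left (by exact_mod_cast hct) (by linarith)
      linarith
    have e7 : (T : ℤ) + (p - 1) * t0 ≥ (P - 1) * q := by nlinarith
    nlinarith

end

end Pool.Agent.Run7.h479.LL
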