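import Mathlib
import Pool.Agent.Run7.h479.LL.Key

/-!
# The theorem of Lam and Leung on the lengths of vanishing sums of roots of unity
-/

namespace Pool.Agent.Run7.h479.LL

open Polynomial

noncomputable section

/-- `w` is a sum of functions which are invariant under the `p`-th roots of unity, for the prime
divisors `p` of `n`. -/
def Poly (n : ℕ) (w : ℂ → ℕ) : Prop :=
  ∃ f : ℕ → ℂ → ℕ, (∀ p ∈ n.primeFactors, ∀ u ∈ mu n, ∀ v ∈ mu p, f p (u * v) = f p u) ∧
    ∀ u ∈ mu n, w u = ∑ p ∈ n.primeFactors, f p u

/-- the length is small, if there are at least three prime divisors -/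
def Small (n len : ℕ) : Prop :=
  ∀ a ∈ n.primeFactors, ∀ b ∈ n.primeFactors, a ≠ n.minFac → b ≠ n.minFac → a ≠ b →
    len < (n.minFac - 1) * (a - 1)

theorem val_congr {n : ℕ} {w w' : ℂ → ℕ} (h : ∀ u ∈ mu n, w u = w' u) : val n w = val n w' :=
  Finset.sum_congr rfl fun u hu => by rw [h u hu]

theorem val_add (n : ℕ) (w w' : ℂ → ℕ) : val n (fun u => w u + w' u) = val n w + val n w' := by
  simp only [val, Nat.cast_add, add_mul, Finset.sum_add_distrib]

theorem tot_add (n : ℕ) (w w' : ℂ → ℕ) : tot n (fun u => w u + w' u) = tot n w + tot n w' := by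
  simp only [tot, Finset.sum_add_distrib]

/-- A function invariant under nontrivial roots of unity has the value zero. -/
theorem val_coset_sum {m q : ℕ} (hm : 0 < m) (hq : q.Prime) (hqm : q ∣ m) (x0 : ℂ → ℕ) :
    val m (fun u => ∑ v ∈ mu q, x0 (u * v)) = 0 := by
  have hz := Complex.isPrimitiveRoot_exp q hq.ne_zero
  set z := Complex.exp (2 * Real.pi * Complex.I / q) with hzdef
  have hz1 : z ≠ 1 := hz.ne_one hq.one_lt
  have hzq : z ∈ mu q := (mem_mu hq.pos).2 hz.pow_eq_one
  have hzm : z ∈ mu m := mem_mu_of_dvd hm hqm hzq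
  have h1 : z * val m (fun u => ∑ v ∈ mu q, x0 (u * v)) =
      val m (fun u => ∑ v ∈ mu q, x0 (u * v)) := by
    conv_rhs => rw [val, ← sum_shift hm hzm]
    rw [val, Finset.mul_sum]
    refine Finset.sum_congr rfl fun u _ => ?_
    rw [coset_shift hm hqm x0 u hzq]
    ring
  have h2 : (z - 1) * val m (fun u => ∑ v ∈ mu q, x0 (u * v)) = 0 := by
    rw [sub_mul, h1, one_mul, sub_self]
  exact (mul_eq_zero.1 h2).resolve_left (sub_ne_zero.2 hz1)

/-- The parts of a vanishing sum have the same value. -/
theorem val_parts {p m : ℕ} (hp : p.Prime) (hpm : ¬ p ∣ m) (hm : 0 < m) (w : ℂ → ℕ)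
    (h : val (p * m) w = 0) : ∃ κ : ℂ, ∀ v ∈ mu p, val m (fun u => w (v * u)) = κ := by
  have hz := Complex.isPrimitiveRoot_exp p hp.ne_zero
  set z := Complex.exp (2 * Real.pi * Complex.I / p) with hzdef
  have hcop : Nat.Coprime p m := (Nat.Prime.coprime_iff_not_dvd hp).2 hpm
  have h1 : ∑ i ∈ Finset.range p, val m (fun u => w (z ^ i * u)) * z ^ i = 0 := by
    rw [← sum_mu hp.pos hz (fun v => val m (fun u => w (v * u)) * v), ← h, val,
      sum_mul hcop hp.pos hm]
    refine Finset.sum_congr rfl fun v _ => ?_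
    rw [val, Finset.sum_mul]
    refine Finset.sum_congr rfl fun u _ => ?_
    ring
  have h2 := parts_eq hp hpm hm hz (fun i => val m (fun u => w (z ^ i * u)))
    (fun s hs i => sum_mem_adjoin hm hs _) h1
  refine ⟨val m (fun u => w (z ^ (p - 1) * u)), fun v hv => ?_⟩
  have : NeZero p := ⟨hp.ne_zero⟩
  obtain ⟨i, hi, rfl⟩ := hz.eq_pow_of_pow_eq_one ((mem_mu hp.pos).1 hv)
  exact h2 i hi

theorem tot_parts {p m : ℕ} (hcop : Nat.Coprime p m) (hp : 0 < p) (hm : 0 < m) (w : ℂ → ℕ) :
    tot (p * m) w = ∑ v ∈ mu p, tot m (fun u => w (v * u)) := by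
  rw [tot, sum_mul hcop hp hm]
  rfl

theorem poly_of_small (n : ℕ) : Squarefree n → ∀ w : ℂ → ℕ, val n w = 0 → Small n (tot n w) →
    Poly n w := by
  classical
  induction n using Nat.strong_induction_on with
  | _ n ih =>
  intro hsq w hw hsm
  have hn : 0 < n := Nat.pos_of_ne_zero hsq.ne_zero
  rcases n.primeFactors.eq_empty_or_nonempty with hemp | hne
  · -- `n = 1`
    have hn1 : n = 1 := by
      rcases Nat.primeFactors_eq_empty.1 hemp with h | h
      · omega
      · exact h
    subst hn1
    refine ⟨fun _ _ => 0, fun _ _ _ _ _ _ => rfl, fun u hu => ?_⟩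
    have hmu : mu 1 = {1} := by
      ext x
      rw [mem_mu one_pos, pow_one, Finset.mem_singleton]
    rw [val, hmu, Finset.sum_singleton, mul_one] at hw
    rw [hmu, Finset.mem_singleton] at hu
    rw [hu, Nat.primeFactors_one, Finset.sum_empty]
    exact_mod_cast hw
  · obtain ⟨p, hpf, hpmax⟩ := Finset.exists_max_image n.primeFactors id hne
    have hp : p.Prime := (Nat.mem_primeFactors.1 hpf).1
    obtain ⟨m, rfl⟩ := (Nat.mem_primeFactors.1 hpf).2.1
    obtain ⟨hcop, _, hsqm⟩ := Nat.squarefree_mul_iff.1 hsq
    have hm : 0 < m := Nat.pos_of_ne_zero hsqm.ne_zero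
    have hpm : ¬ p ∣ m := (Nat.Prime.coprime_iff_not_dvd hp).1 hcop
    obtain ⟨κ, hκ⟩ := val_parts hp hpm hm w hw
    have hpfeq : (p * m).primeFactors = insert p m.primeFactors := by
      rw [Nat.primeFactors_mul hp.ne_zero hm.ne', hp.primeFactors]
      rfl
    have hpnm : p ∉ m.primeFactors := fun h => hpm (Nat.mem_primeFactors.1 h).2.1
    rcases Nat.eq_or_lt_of_le (show 1 ≤ m from hm) with hm1 | hm1
    · -- `n = p`
      subst hm1
      rw [mul_one] at *
      refine ⟨fun _ => w, ?_, ?_⟩
      · intro r hr u hu v hv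
        have hrp : r = p := by
          rw [hp.primeFactors, Finset.mem_singleton] at hr
          exact hr
        subst hrp
        have hmu : mu 1 = {1} := by
          ext x
          rw [mem_mu one_pos, pow_one, Finset.mem_singleton]
        have h1 := hκ (u * v) (mul_mem_mu hn hu hv)
        have h2 := hκ u hu
        simp only [val, hmu, Finset.sum_singleton, mul_one] at h1 h2
        exact_mod_cast h1.trans h2.symm
      · intro u _
        rw [hp.primeFactors, Finset.sum_singleton]
    · -- the general case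
      have hmax : ∀ r ∈ m.primeFactors, r < p := by
        intro r hr
        have h1 : r ≤ p := hpmax r (by rw [hpfeq]; exact Finset.mem_insert_of_mem hr)
        exact lt_of_le_of_ne h1 (fun h => hpnm (h ▸ hr))
      set q := m.minFac with hqdef
      have hq : q.Prime := Nat.minFac_prime (by omega)
      have hqm : q ∣ m := Nat.minFac_dvd m
      have hqf : q ∈ m.primeFactors := Nat.mem_primeFactors.2 ⟨hq, hqm, hm.ne'⟩
      have hqp : q < p := hmax q hqf
      have hmin : ∀ r ∈ m.primeFactors, q ≤ r := fun r hr =>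
        Nat.minFac_le_of_dvd (Nat.mem_primeFactors.1 hr).1.two_le (Nat.mem_primeFactors.1 hr).2.1
      have hminn : (p * m).minFac = q := by
        have hne1 : p * m ≠ 1 := by
          intro h
          have := Nat.eq_one_of_mul_eq_one_left h
          omega
        have h1 : (p * m).minFac.Prime := Nat.minFac_prime hne1
        apply le_antisymm
        · exact Nat.minFac_le_of_dvd hq.two_le (Dvd.dvd.mul_left hqm p)
        · rcases (Nat.Prime.dvd_mul h1).1 (Nat.minFac_dvd (p * m)) with h2 | h2
          · rw [(Nat.prime_dvd_prime_iff_eq h1 hp).1 h2]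
            exact hqp.le
          · exact hmin _ (Nat.mem_primeFactors.2 ⟨h1, h2, hm.ne'⟩)
      have hmemn : ∀ r ∈ m.primeFactors, r ∈ (p * m).primeFactors := fun r hr => by
        rw [hpfeq]; exact Finset.mem_insert_of_mem hr
      have hpn : p ∈ (p * m).primeFactors := by
        rw [hpfeq]; exact Finset.mem_insert_self _ _
      obtain ⟨ω₀, hω₀, hω₀min⟩ := Finset.exists_min_image (mu p)
        (fun v => tot m (fun u => w (v * u))) ⟨1, one_mem_mu hp.pos⟩
      set x0 : ℂ → ℕ := fun u => w (ω₀ * u) with hx0
      set c : ℂ → ℕ := fun u => ∑ v ∈ mu q, x0 (u * v) with hc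
      set t0 := tot m x0 with ht0
      have htotc : tot m c = q * t0 := sum_coset_tot hm hqm x0
      -- the total length
      have htotal : ∀ v ∈ mu p, tot m (fun u => w (v * u)) + (p - 1) * t0 ≤ tot (p * m) w := by
        intro v hv
        rw [tot_parts hcop hp.pos hm, ← Finset.add_sum_erase _ _ hv]
        apply Nat.add_le_add_left
        have h1 : (mu p).card = p := card_mu hp.pos
        have h2 : ((mu p).erase v).card = p - 1 := by rw [Finset.card_erase_of_mem hv, h1]
        rw [← h2, ← smul_eq_mul]
        exact Finset.card_nsmul_le_sum _ _ _ fun v' hv' => hω₀min v' (Finset.mem_of_mem_erase hv')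
      have hex : ∀ v : ℂ, ∃ f : ℕ → ℂ → ℕ, v ∈ mu p →
          (∀ r ∈ m.primeFactors, ∀ u ∈ mu m, ∀ v ∈ mu r, f r (u * v) = f r u) ∧
          (∀ u ∈ mu m, w (v * u) + c u = x0 u + ∑ r ∈ m.primeFactors, f r u) := by
        intro v
        by_cases hv : v ∈ mu p
        · set y : ℂ → ℕ := fun u => w (v * u) + ∑ v' ∈ (mu q).erase 1, x0 (u * v') with hy
          have hyc : ∀ u, y u + x0 u = w (v * u) + c u := by
            intro u
            simp only [hy, hc]
            rw [← Finset.add_sum_erase _ _ (one_mem_mu hq.pos), mul_one]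
            omega
          have hval : val m y = 0 := by
            have h1 : val m y + val m x0 = val m (fun u => w (v * u)) + val m c := by
              rw [← val_add, ← val_add]
              exact val_congr fun u _ => hyc u
            have h2 : val m c = 0 := val_coset_sum hm hq hqm x0
            rw [h2, hκ v hv, hκ ω₀ hω₀] at h1
            linear_combination h1
          have htot : tot m y + t0 = tot m (fun u => w (v * u)) + q * t0 := by
            rw [← htotc, ht0, ← tot_add, ← tot_add]
            exact Finset.sum_congr rfl fun u _ => hyc u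
          have hyn : tot m y ≤ tot (p * m) w := by
            have h1 := htotal v hv
            obtain ⟨p', rfl⟩ : ∃ p', p = p' + 1 := ⟨p - 1, by have := hp.pos; omega⟩
            rw [Nat.add_sub_cancel] at h1
            have h2 : q * t0 ≤ p' * t0 := Nat.mul_le_mul_right _ (by omega)
            omega
          have hsmm : Small m (tot m y) := by
            intro a ha b hb ha' hb' hab
            have h1 := hsm a (hmemn a ha) b (hmemn b hb) (by rw [hminn]; exact ha')
              (by rw [hminn]; exact hb') hab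
            rw [hminn] at h1
            exact lt_of_le_of_lt hyn h1
          obtain ⟨f, hf1, hf2⟩ := ih m (by
            have h1 := hp.two_le
            nlinarith) hsqm y hval hsmm
          refine ⟨f, fun _ => ⟨hf1, fun u hu => ?_⟩⟩
          rw [← hyc u, hf2 u hu, add_comm]
        · exact ⟨fun _ _ => 0, fun h => absurd h hv⟩
      choose f hf using hex
      have hkey : ∀ v ∈ mu p, ∀ u ∈ mu m, c u ≤ f v q u := by
        intro v hv u hu
        refine key (p := p) hm hq hqm hsqm hmin hmax (fun u => w (v * u)) x0 (f v) (hf v hv).1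
          (hf v hv).2 (hω₀min v hv) ?_ u hu
        intro a ha haq
        refine lt_of_le_of_lt (htotal v hv) ?_
        have h1 := hsm a (hmemn a ha) p hpn (by rw [hminn]; exact haq)
          (by rw [hminn]; exact hqp.ne') (hmax a ha).ne
        rw [hminn] at h1
        exact h1
      -- the decomposition
      obtain ⟨e1, e2, hE1, hE2, hE3⟩ := exists_crt hcop hp.pos hm
      have hcinv : ∀ u, ∀ v ∈ mu q, c (u * v) = c u := fun u v hv => coset_shift hm hqm x0 u hv
      refine ⟨fun r U => if r = p then x0 (U ^ e2) else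
        if r = q then f (U ^ e1) q (U ^ e2) - c (U ^ e2) else f (U ^ e1) r (U ^ e2), ?_, ?_⟩
      · intro r hr U hU v hv
        obtain ⟨hU1, hU2, hU3⟩ := hE3 U hU
        by_cases hrp : r = p
        · subst hrp
          simp only [if_true]
          rw [mul_pow, (hE1 v hv).2, mul_one]
        · have hrm : r ∈ m.primeFactors := by
            rw [hpfeq, Finset.mem_insert] at hr
            exact hr.resolve_left hrp
          have hvm : v ∈ mu m := mem_mu_of_dvd hm (Nat.mem_primeFactors.1 hrm).2.1 hv
          simp only [if_neg hrp]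
          rw [mul_pow, mul_pow, (hE2 v hvm).1, (hE2 v hvm).2, mul_one]
          by_cases hrq : r = q
          · subst hrq
            simp only [if_true]
            rw [(hf _ hU1).1 q hrm _ hU2 v hv, hcinv _ v hv]
          · simp only [if_neg hrq]
            rw [(hf _ hU1).1 r hrm _ hU2 v hv]
      · intro U hU
        obtain ⟨hU1, hU2, hU3⟩ := hE3 U hU
        rw [hpfeq, Finset.sum_insert hpnm]
        simp only [if_true]
        have h1 : ∀ r ∈ m.primeFactors, r ≠ p := fun r hr => (hmax r hr).ne
        rw [Finset.sum_congr rfl (fun r hr => if_neg (h1 r hr)),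
          ← Finset.add_sum_erase _ _ hqf]
        simp only [if_true]
        rw [Finset.sum_congr rfl (fun r hr => if_neg (Finset.ne_of_mem_erase hr))]
        have h2 := (hf _ hU1).2 _ hU2
        rw [hU3, ← Finset.add_sum_erase _ _ hqf] at h2
        have h3 := hkey _ hU1 _ hU2
        omega

/-- The theorem of Lam and Leung for squarefree orders. -/
theorem tot_mem_of_squarefree {n : ℕ} (hsq : Squarefree n) (w : ℂ → ℕ) (hw : val n w = 0) :
    tot n w ∈ AddSubmonoid.closure {p : ℕ | p.Prime ∧ p ∣ n} := by
  classical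
  have hn : 0 < n := Nat.pos_of_ne_zero hsq.ne_zero
  by_cases hsm : Small n (tot n w)
  · obtain ⟨f, hf1, hf2⟩ := poly_of_small n hsq w hw hsm
    have h1 : tot n w = ∑ p ∈ n.primeFactors, ∑ u ∈ mu n, f p u := by
      rw [tot, Finset.sum_congr rfl hf2, Finset.sum_comm]
    rw [h1]
    refine AddSubmonoid.sum_mem _ fun p hp => ?_
    have hp' := Nat.mem_primeFactors.1 hp
    obtain ⟨k, hk⟩ := dvd_sum_of_inv hn hp'.2.1 (f p) (hf1 p hp)
    rw [hk, mul_comm, ← smul_eq_mul]
    have h2 : p ∈ AddSubmonoid.closure {p : ℕ | p.Prime ∧ p ∣ n} :=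
      AddSubmonoid.subset_closure ⟨hp'.1, hp'.2.1⟩
    exact AddSubmonoid.nsmul_mem _ h2 k
  · simp only [Small, not_forall] at hsm
    obtain ⟨a, ha, b, hb, hq1, hq2, hab, hlen⟩ := hsm
    rw [not_lt] at hlen
    have ha' := Nat.mem_primeFactors.1 ha
    set q := n.minFac with hq
    have hn1 : n ≠ 1 := by
      rintro rfl
      simp at ha
    have hqp : q.Prime := Nat.minFac_prime hn1
    have hcop : Nat.Coprime q a := (Nat.coprime_primes hqp ha'.1).2 (fun h => hq1 h.symm)
    have hfro := frobeniusNumber_pair hcop hqp.one_lt ha'.1.one_lt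
    by_contra hmem
    have h1 : tot n w ∉ AddSubmonoid.closure {q, a} := by
      intro h2
      refine hmem (AddSubmonoid.closure_mono ?_ h2)
      intro x hx
      rcases hx with rfl | hx
      · exact ⟨hqp, Nat.minFac_dvd n⟩
      · rw [Set.mem_singleton_iff] at hx
        subst hx
        exact ⟨ha'.1, ha'.2.1⟩
    have h2 := hfro.2 h1
    have h3 := hqp.two_le
    have h4 := ha'.1.two_le
    obtain ⟨q', hq'⟩ : ∃ q', q = q' + 2 := ⟨q - 2, by omega⟩
    obtain ⟨a', ha''⟩ : ∃ a', a = a' + 2 := ⟨a - 2, by omega⟩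
    rw [hq', ha''] at hlen h2
    have h5 : (q' + 2 - 1) * (a' + 2 - 1) = q' * a' + q' + a' + 1 := by
      have e1 : q' + 2 - 1 = q' + 1 := rfl
      have e2 : a' + 2 - 1 = a' + 1 := rfl
      rw [e1, e2]; ring
    have h6 : (q' + 2) * (a' + 2) - (q' + 2) - (a' + 2) = q' * a' + q' + a' := by
      have e1 : (q' + 2) * (a' + 2) = q' * a' + 2 * q' + 2 * a' + 4 := by ring
      omega
    rw [h5] at hlen
    rw [h6] at h2
    omega

/-- **The theorem of Lam and Leung**: the length of a vanishing sum of `n`-th roots of unity is a sum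
of prime divisors of `n`. -/
theorem tot_mem (n : ℕ) : 0 < n → ∀ w : ℂ → ℕ, val n w = 0 →
    tot n w ∈ AddSubmonoid.closure {p : ℕ | p.Prime ∧ p ∣ n} := by
  classical
  induction n using Nat.strong_induction_on with
  | _ n ih =>
  intro hn w hw
  by_cases hsq : Squarefree n
  · exact tot_mem_of_squarefree hsq w hw
  · rw [Nat.squarefree_iff_prime_squarefree] at hsq
    push Not at hsq
    obtain ⟨p, hp, ⟨k, hk⟩⟩ := hsq
    have hk0 : 0 < k := by
      rcases Nat.eq_zero_or_pos k with h | h
      · subst h; omega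
      · exact h
    set m := p * k with hmdef
    have hm : 0 < m := Nat.mul_pos hp.pos hk0
    have hnm : n = p * m := by rw [hk, hmdef]; ring
    have hpm : p ∣ m := Dvd.intro _ rfl
    subst hnm
    have ht := Complex.isPrimitiveRoot_exp (p * m) hn.ne'
    set t := Complex.exp (2 * Real.pi * Complex.I / ((p * m : ℕ) : ℂ)) with htdef
    have ht0 : t ≠ 0 := ht.ne_zero hn.ne'
    have hs : IsPrimitiveRoot (t ^ p) m := ht.pow hn rfl
    -- the parts
    have hsum : ∀ {M : Type} [AddCommMonoid M] (G : ℂ → M),
        ∑ u ∈ mu (p * m), G u = ∑ i ∈ Finset.range p, ∑ u ∈ mu m, G (t ^ i * u) := by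
      intro M _ G
      rw [sum_mu hn ht]
      have h1 : ∀ i, ∑ u ∈ mu m, G (t ^ i * u) =
          ∑ j ∈ Finset.range m, G (t ^ (i + p * j)) := by
        intro i
        rw [sum_mu hm hs]
        refine Finset.sum_congr rfl fun j _ => ?_
        rw [← pow_mul, ← pow_add]
      simp only [h1]
      rw [← Finset.sum_product']
      symm
      refine Finset.sum_nbij' (fun x => x.1 + p * x.2) (fun l => (l % p, l / p)) ?_ ?_ ?_ ?_ ?_
      · rintro ⟨i, j⟩ hx
        simp only [Finset.mem_product, Finset.mem_range] at hx ⊢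
        calc i + p * j < p + p * j := by omega
          _ = p * (j + 1) := by ring
          _ ≤ p * m := Nat.mul_le_mul_left _ hx.2
      · intro l hl
        simp only [Finset.mem_product, Finset.mem_range] at hl ⊢
        exact ⟨Nat.mod_lt _ hp.pos, Nat.div_lt_of_lt_mul hl⟩
      · rintro ⟨i, j⟩ hx
        simp only [Finset.mem_product, Finset.mem_range] at hx
        ext
        · simp only [Nat.add_mul_mod_self_left]
          exact Nat.mod_eq_of_lt hx.1
        · simp only
          rw [Nat.add_mul_div_left _ _ hp.pos, Nat.div_eq_of_lt hx.1, zero_add]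
      · intro l _
        exact Nat.mod_add_div l p
      · rintro ⟨i, j⟩ _
        rfl
    have hval : ∑ i ∈ Finset.range p, val m (fun u => w (t ^ i * u)) * t ^ i = 0 := by
      rw [← hw, val, hsum]
      refine Finset.sum_congr rfl fun i _ => ?_
      rw [val, Finset.sum_mul]
      refine Finset.sum_congr rfl fun u _ => ?_
      ring
    have h0 := parts_zero hp hpm hm ht (fun i => val m (fun u => w (t ^ i * u)))
      (fun i => sum_mem_adjoin hm hs _) hval
    have h1 : tot (p * m) w = ∑ i ∈ Finset.range p, tot m (fun u => w (t ^ i * u)) := hsum w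
    rw [h1]
    refine AddSubmonoid.sum_mem _ fun i hi => ?_
    have h2 := ih m (by have := hp.two_le; nlinarith) hm (fun u => w (t ^ i * u))
      (h0 i (Finset.mem_range.1 hi))
    refine AddSubmonoid.closure_mono ?_ h2
    rintro r ⟨hr1, hr2⟩
    exact ⟨hr1, hr2.mul_left p⟩

end

end Pool.Agent.Run7.h479.LL
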